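import Pool.Agent.Helper50_CYD.Clm

/-! # CYE: module MIN (the smaller multiplicity is bounded by the order of a fixed polynomial) -/

set_option autoImplicit false

open Polynomial

namespace Pool.Agent.CYE.H51

open Pool.Agent.CYD

/-- MIN: the smaller one of the two multiplicities. -/
def MinStmt : Prop :=
  ∀ (p m : ℕ) (g h : ℤ[X]), p.Prime → 3 ≤ m → Fg (p * m) g h →
    ∀ (L : Type) [Field L] [CharP L p] (a : L), IsPrimitiveRoot a m →
    (X - C a) ^ (min (rootMultiplicity a (red L g)) (rootMultiplicity a (red L h))) ∣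
      derivative (X * derivative (cyclotomic m L))

theorem min' : MinStmt := by
  intro p m g h hp hm F L _ _ a ha
  have := Fact.mk hp
  have hpm : ¬ p ∣ m := fun hd => by
    have h1 := Nat.coprime_of_squarefree_mul F.hs
    rw [Nat.Prime.coprime_iff_not_dvd hp] at h1
    exact h1 hd
  have hp2 : Odd p := (Nat.odd_mul.mp F.ho).1
  have hp3 : 3 ≤ p := by
    have h1 := hp.two_le
    rcases h1.eq_or_lt with h2 | h2
    · rw [← h2] at hp2
      exact absurd hp2 (by decide)
    · exact h2
  obtain ⟨E1, hE⟩ := H50.cyc_step p m hp hpm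
  have hgh : g * h = C ((p - 1 : ℕ) : ℤ) * cyclotomic m ℤ ^ (p - 2) *
      derivative (cyclotomic m ℤ) + C (p : ℤ) * derivative E1 := by
    rw [F.fac, hE, derivative_add, derivative_pow, derivative_C_mul, Nat.sub_sub]
  have hGH : red L g * red L h =
      -(cyclotomic m L ^ (p - 2) * derivative (cyclotomic m L)) := by
    have h1 := congrArg (red L) hgh
    have h2 : red L (g * h) = red L g * red L h := Polynomial.map_mul _
    have h3 : red L (C ((p - 1 : ℕ) : ℤ) * cyclotomic m ℤ ^ (p - 2) *
        derivative (cyclotomic m ℤ) + C (p : ℤ) * derivative E1) =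
        C ((p - 1 : ℕ) : L) * cyclotomic m L ^ (p - 2) * derivative (cyclotomic m L) := by
      have h4 : red L (C ((p - 1 : ℕ) : ℤ) * cyclotomic m ℤ ^ (p - 2) *
        derivative (cyclotomic m ℤ) + C (p : ℤ) * derivative E1) =
        red L (C ((p - 1 : ℕ) : ℤ) * cyclotomic m ℤ ^ (p - 2) *
        derivative (cyclotomic m ℤ)) + red L (C (p : ℤ) * derivative E1) := Polynomial.map_add _
      rw [h4, H50.red_C_p, add_zero]
      unfold red
      rw [Polynomial.map_mul, Polynomial.map_mul, Polynomial.map_pow, map_cyclotomic_int,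
        Polynomial.map_C, ← derivative_map, map_cyclotomic_int]
      simp
    rw [← h2, h1, h3, Nat.cast_sub hp.one_le, CharP.cast_eq_zero L p]
    simp
  obtain ⟨hsum, hder⟩ := H50.mult_sum hp hpm ha hGH
  obtain ⟨j, hj⟩ : ∃ j, j = min (rootMultiplicity a (red L g)) (rootMultiplicity a (red L h)) :=
    ⟨_, rfl⟩
  have hj1 : j ≤ rootMultiplicity a (red L g) := hj ▸ min_le_left _ _
  have hj2 : j ≤ rootMultiplicity a (red L h) := hj ▸ min_le_right _ _
  rw [← hj]
  have hj3 : j + 1 ≤ rootMultiplicity a (red L g) + rootMultiplicity a (red L h) := by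
    obtain ⟨r, hr⟩ := hp2
    omega
  have hjp : j + 2 ≤ p := by omega
  let _ : Algebra (ZMod p) L := ZMod.algebra L p
  have halg : ZMod.castHom (dvd_refl p) L = algebraMap (ZMod p) L := Subsingleton.elim _ _
  have hmL : NeZero (m : L) := ⟨fun h => hpm ((CharP.cast_eq_zero_iff L p m).1 h)⟩
  have hroot : aeval a (cyclotomic m (ZMod p)) = 0 := by
    have h1 : IsRoot (cyclotomic m L) a := (isRoot_cyclotomic_iff).2 ha
    rw [← eval_map_algebraMap, map_cyclotomic]
    exact h1
  obtain ⟨ψ, hψ⟩ := minpoly.dvd (ZMod p) a hroot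
  have hroot1 : ((minpoly (ZMod p) a).map (algebraMap (ZMod p) L)).eval a = 0 := by
    rw [eval_map_algebraMap]
    exact minpoly.aeval _ _
  obtain ⟨q, hq⟩ := dvd_iff_isRoot.2 (show IsRoot _ a from hroot1)
  have hqa : q.eval a ≠ 0 := by
    intro h1
    apply hder
    have h2 : cyclotomic m L = (X - C a) * (q * ψ.map (algebraMap (ZMod p) L)) := by
      rw [← map_cyclotomic m (algebraMap (ZMod p) L), hψ, Polynomial.map_mul, hq, mul_assoc]
    rw [h2, derivative_mul]
    simp [h1]
  obtain ⟨P, hP⟩ := H50.exists_lift (minpoly (ZMod p) a)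
  obtain ⟨Ψ, hΨ⟩ := H50.exists_lift ψ
  have hΦ1 : (cyclotomic m ℤ - P * Ψ).map (Int.castRingHom (ZMod p)) = 0 := by
    rw [Polynomial.map_sub, Polynomial.map_mul, hP, hΨ, map_cyclotomic_int, hψ, sub_self]
  obtain ⟨Θ, hΘ⟩ := H50.exists_C_mul hΦ1
  have hΦ : cyclotomic m ℤ = P * Ψ + C (p : ℤ) * Θ := by
    rw [← hΘ]
    ring
  obtain ⟨G1, G2, hg⟩ := H50.exists_decomp q hq hqa hP g (rootMultiplicity a (red L g))
    (pow_rootMultiplicity_dvd _ _)
  obtain ⟨H1, H2, hh⟩ := H50.exists_decomp q hq hqa hP h (rootMultiplicity a (red L h))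
    (pow_rootMultiplicity_dvd _ _)
  have hP0 : P.map (Int.castRingHom (ZMod p)) ≠ 0 := by
    rw [hP]
    intro h1
    rw [h1, zero_mul] at hψ
    exact cyclotomic_ne_zero m (ZMod p) hψ
  rw [← hsum] at hgh
  obtain ⟨Z, W, hZW⟩ := H50.int_step p _ _ j hp _ P Ψ Θ g h G1 G2 H1 H2 _ _ _ hP0 hΦ hg
    hh hgh hj1 hj2 hj3
  have hred : ∀ f k : ℤ[X], red L (f + k) = red L f + red L k := fun f k => Polynomial.map_add _
  have hredm : ∀ f k : ℤ[X], red L (f * k) = red L f * red L k := fun f k => Polynomial.map_mul _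
  have hredp : ∀ (f : ℤ[X]) (k : ℕ), red L (f ^ k) = red L f ^ k := fun f k =>
    Polynomial.map_pow _ _
  have hredd : ∀ f : ℤ[X], derivative (red L f) = red L (derivative f) := fun f =>
    derivative_map _ _
  have hredX : red L X = X := Polynomial.map_X _
  have hredc : red L (cyclotomic m ℤ) = cyclotomic m L := map_cyclotomic_int _ _
  have hPa : (X - C a) ∣ red L P := by
    rw [H50.red_eq_map (p := p), hP, halg, hq]
    exact dvd_mul_right _ _
  have hd1 : (X - C a) ^ j ∣ derivative (red L E1) := by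
    rw [hredd, hZW, hred, H50.red_C_p, add_zero, hredm, hredp]
    exact (pow_dvd_pow_of_dvd hPa _).trans (dvd_mul_right _ _)
  have hd2 : (X - C a) ^ (j + 1) ∣ red L E1 - C ((red L E1).eval a) := by
    refine H50.rootMult_derivative (p := p) (by omega) (by simp) ?_
    rw [derivative_sub, derivative_C, sub_zero]
    exact hd1
  -- the main identity
  have hid := congrArg (red L) (H50.cyc_deriv p m hp hpm E1 hE)
  have hexp : red L (expand ℤ p (X * derivative (cyclotomic m ℤ))) =
      (X * derivative (cyclotomic m L)) ^ p := by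
    have h1 : (expand ℤ p (X * derivative (cyclotomic m ℤ))).map (Int.castRingHom (ZMod p)) =
        ((X * derivative (cyclotomic m ℤ)).map (Int.castRingHom (ZMod p))) ^ p := by
      rw [map_expand, ZMod.expand_card]
    rw [H50.red_eq_map (p := p), h1, Polynomial.map_pow, ← H50.red_eq_map (p := p), hredm, hredX,
      ← hredd, hredc]
  rw [hexp] at hid
  simp only [hred, hredm, hredp, hredX, ← hredd, hredc] at hid
  set T : L[X] := X * derivative (cyclotomic m L) with hT
  have hcyc : (X - C a) ∣ cyclotomic m L := by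
    rw [dvd_iff_isRoot]
    exact (isRoot_cyclotomic_iff).2 ha
  have hTp : (X - C a) ^ (j + 1) ∣ T ^ p - C (T.eval a) ^ p := by
    have h1 : T ^ p - C (T.eval a) ^ p = (T - C (T.eval a)) ^ p := (sub_pow_char _ _).symm
    rw [h1]
    refine (pow_dvd_pow _ (by omega)).trans (pow_dvd_pow_of_dvd ?_ _)
    rw [dvd_iff_isRoot]
    simp
  have hmain : (X - C a) ^ (j + 1) ∣
      C (T.eval a ^ p) - C ((red L E1).eval a) * T := by
    have h1 : C (T.eval a ^ p) - C ((red L E1).eval a) * T =
        -(T ^ p - C (T.eval a) ^ p) +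
        (X * (cyclotomic m L ^ (p - 1) * derivative (cyclotomic m L)) +
          (T * (red L E1 - C ((red L E1).eval a)) +
            X * (cyclotomic m L * derivative (red L E1)))) := by
      rw [C_pow, hid]
      ring
    rw [h1]
    refine dvd_add (dvd_neg.2 hTp) (dvd_add ?_ (dvd_add ?_ ?_))
    · refine Dvd.dvd.mul_left (Dvd.dvd.mul_right ?_ _) _
      exact (pow_dvd_pow _ (by omega)).trans (pow_dvd_pow_of_dvd hcyc _)
    · exact Dvd.dvd.mul_left hd2 _
    · refine Dvd.dvd.mul_left ?_ _
      rw [pow_succ']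
      exact mul_dvd_mul hcyc hd1
  have hTa : T.eval a ≠ 0 := by
    rw [hT, eval_mul, eval_X]
    exact mul_ne_zero (ha.ne_zero (by omega)) hder
  have he : (red L E1).eval a ≠ 0 := by
    intro h0
    rw [h0, C_0, zero_mul, sub_zero] at hmain
    have h1 : (X - C a) ∣ C (T.eval a ^ p) := (dvd_pow_self _ (Nat.succ_ne_zero j)).trans hmain
    rw [dvd_iff_isRoot, IsRoot, eval_C] at h1
    exact pow_ne_zero p hTa h1
  obtain ⟨Q, hQ⟩ := hmain
  clear_value T
  have h2 := congrArg derivative hQ
  rw [derivative_sub, derivative_C, derivative_C_mul, zero_sub, derivative_mul,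
    derivative_X_sub_C_pow, Nat.add_sub_cancel] at h2
  have h3 : C ((red L E1).eval a) * derivative T = (X - C a) ^ j *
      (-(C ((j + 1 : ℕ) : L) * Q + (X - C a) * derivative Q)) := by
    rw [← neg_neg (C ((red L E1).eval a) * derivative T), h2, pow_succ]
    ring
  have h4 : (X - C a) ^ j ∣ C ((red L E1).eval a) * derivative T := ⟨_, h3⟩
  have hu : IsUnit (C ((red L E1).eval a)) := isUnit_C.2 (isUnit_iff_ne_zero.2 he)
  exact (hu.dvd_mul_left).1 h4

end Pool.Agent.CYE.H51
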