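import Pool.Agent.CYE.StmtsB
import Pool.Agent.Helper51_CYE.Min

/-! # CYE: row MIN -/

set_option autoImplicit false

open Polynomial

namespace Pool.Agent.CYE.H51R

open Pool.Agent.CYD Pool.Agent.CYE

theorem min (hBaf : BafStmt) : Pool.Agent.CYE.MinStmt := by
  intro p m g h F L _ _ a ha
  obtain ⟨-, hφ, -, hm2, -⟩ := hBaf p m g h F
  have hT0 : derivative (X * derivative (cyclotomic m L)) ≠ 0 := by
    intro h0
    have h1 := congrArg (fun q => coeff q (m.totient - 1)) h0
    obtain ⟨t, ht⟩ : ∃ t, m.totient = t + 1 := ⟨m.totient - 1, by omega⟩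
    have h2 : (cyclotomic m L).coeff (t + 1) = 1 := by
      have h3 := cyclotomic.monic m L
      rw [Monic, leadingCoeff, natDegree_cyclotomic, ht] at h3
      exact h3
    simp only [coeff_derivative, coeff_X_mul, coeff_zero, ht, Nat.add_sub_cancel, h2] at h1
    have h4 : ((m.totient : ℕ) : L) ≠ 0 := fun h5 =>
      hφ ((CharP.cast_eq_zero_iff L p _).1 h5)
    rw [ht] at h4
    push_cast at h4
    rw [one_mul, mul_self_eq_zero] at h1
    exact h4 h1
  unfold jm
  rw [le_rootMultiplicity_iff hT0]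
  exact H51.min' p m g h F.hp F.hm F.F L a ha

end Pool.Agent.CYE.H51R
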