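import Pool.Agent.CYE.StmtsB
import Pool.Agent.Helper50_CYD.Rpb

/-! # CYE: row RBB (the representations of `u(k)`) -/

set_option autoImplicit false

open Polynomial IsLocalRing

namespace Pool.Agent.CYE.H51R

open Pool.Agent.CYD Pool.Agent.CYD.H50R Pool.Agent.CYE

theorem rbb (hBaf : BafStmt) (hFcm : FcmStmt) (hMin : Pool.Agent.CYE.MinStmt)
    (hAff : AffStmt) : Pool.Agent.CYE.RbbStmt := by
  intro p m g h FF K _ _ A z hpA hz k D hk hkD
  classical
  have hp := FF.hp
  have hm := FF.hm
  have F := FF.F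
  have := Fact.mk hp
  have hcop : p.Coprime m := Nat.coprime_of_squarefree_mul F.hs
  have hpm : ¬ p ∣ m := FF.ndvd
  have hpL : (p : ResidueField A) = 0 := by
    have h1 := (IsLocalRing.residue_eq_zero_iff (R := A) (p : A)).2 hpA
    rwa [map_natCast] at h1
  have hchar : CharP (ResidueField A) p :=
    (CharP.charP_iff_prime_eq_zero hp).2 hpL
  have ha : IsPrimitiveRoot (residue A z) m := prim_residue hp hpm A z hz
  obtain ⟨f1, f2, f3, f4, f5, f6, f7, f8, f9, f10, f11⟩ := hFcm p m g h FF (ResidueField A)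
  obtain ⟨hΔ, hΔ0, hΔd, hld, -, -, -, -⟩ := hAff p m g h FF (ResidueField A)
  obtain ⟨b1, -, -, hm2, -⟩ := hBaf p m g h FF
  set a := residue A z with ha_def
  have hp2 : 2 ≤ p := hp.two_le
  obtain ⟨c0, hc0⟩ : ∃ c0 : (ResidueField A)[X], c0 = cyclotomic m (ResidueField A) := ⟨_, rfl⟩
  have hc0ne : c0 ≠ 0 := by rw [hc0]; exact cyclotomic_ne_zero m _
  have hgne : red (ResidueField A) g ≠ 0 := fun h0 => f8 (by rw [h0, coeff_zero])
  have hgrne : red (ResidueField A) g.reverse ≠ 0 := fun h0 => f9 (by rw [h0, coeff_zero])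
  have hhne : red (ResidueField A) h ≠ 0 := fun h0 => f10 (by rw [h0, coeff_zero])
  have hhrne : red (ResidueField A) h.reverse ≠ 0 := fun h0 => f11 (by rw [h0, coeff_zero])
  obtain ⟨Δ, hΔ_def⟩ : ∃ Δ : (ResidueField A)[X], Δ = Dl (ResidueField A) m := ⟨_, rfl⟩
  obtain ⟨Ng, hNg⟩ : ∃ N : (ResidueField A)[X], N = ld Δ (red (ResidueField A) g) := ⟨_, rfl⟩
  obtain ⟨Nh, hNh⟩ : ∃ N : (ResidueField A)[X], N = ld Δ (red (ResidueField A) h) := ⟨_, rfl⟩
  obtain ⟨Ngr, hNgr⟩ : ∃ N : (ResidueField A)[X], N = ld Δ (red (ResidueField A) g.reverse) :=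
    ⟨_, rfl⟩
  obtain ⟨Nhr, hNhr⟩ : ∃ N : (ResidueField A)[X], N = ld Δ (red (ResidueField A) h.reverse) :=
    ⟨_, rfl⟩
  obtain ⟨Nc, hNc⟩ : ∃ N : (ResidueField A)[X], N = ld Δ c0 := ⟨_, rfl⟩
  rw [← hΔ_def] at hld hΔ
  have eg : Ng * red (ResidueField A) g = Δ * (X * derivative (red (ResidueField A) g)) := by
    rw [hNg]
    exact (hld _ (Or.inl rfl)).1
  have eh : Nh * red (ResidueField A) h = Δ * (X * derivative (red (ResidueField A) h)) := by
    rw [hNh]
    exact (hld _ (Or.inr (Or.inl rfl))).1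
  have egr : Ngr * red (ResidueField A) g.reverse =
      Δ * (X * derivative (red (ResidueField A) g.reverse)) := by
    rw [hNgr]
    exact (hld _ (Or.inr (Or.inr (Or.inl rfl)))).1
  have ehr : Nhr * red (ResidueField A) h.reverse =
      Δ * (X * derivative (red (ResidueField A) h.reverse)) := by
    rw [hNhr]
    exact (hld _ (Or.inr (Or.inr (Or.inr (Or.inl rfl))))).1
  have ec : Nc * c0 = Δ * (X * derivative c0) := by
    rw [hNc, hc0]
    exact (hld _ (Or.inr (Or.inr (Or.inr (Or.inr (Or.inl rfl)))))).1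
  have hredc : red (ResidueField A) (cyclotomic m ℤ) = c0 := by
    rw [hc0]
    exact map_cyclotomic_int _ _
  have hredm : ∀ f k : ℤ[X], red (ResidueField A) (f * k) =
      red (ResidueField A) f * red (ResidueField A) k := fun f k => Polynomial.map_mul _
  have e10 : (Ngr + (Nh + Nc)) * red (ResidueField A) (g.reverse * (h * cyclotomic m ℤ)) =
      Δ * (X * derivative (red (ResidueField A) (g.reverse * (h * cyclotomic m ℤ)))) := by
    rw [hredm, hredm, hredc]
    exact ld_mul egr (ld_mul eh ec)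
  have e01 : (Nhr + (Ng + Nc)) * red (ResidueField A) (h.reverse * (g * cyclotomic m ℤ)) =
      Δ * (X * derivative (red (ResidueField A) (h.reverse * (g * cyclotomic m ℤ)))) := by
    rw [hredm, hredm, hredc]
    exact ld_mul ehr (ld_mul eg ec)
  have e11 : (Nh + Δ) * red (ResidueField A) (-(X * h)) =
      Δ * (X * derivative (red (ResidueField A) (-(X * h)))) := by
    have h1 : red (ResidueField A) (-(X * h)) = -(X * red (ResidueField A) h) := by
      unfold red
      rw [Polynomial.map_neg, Polynomial.map_mul, Polynomial.map_X]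
    rw [h1]
    exact ld_negX eh
  have hX : (X : (ResidueField A)[X]) ≠ 0 := X_ne_zero
  have ha0 : a ≠ 0 := ha.ne_zero (by omega)
  have hm1 : 1 ≤ m := by omega
  have hkp : ¬ p ∣ k := fun hd => by
    have h1 : p ∣ Nat.gcd k (p * m) := Nat.dvd_gcd hd (dvd_mul_right _ _)
    rw [Nat.Coprime] at hk
    rw [hk] at h1
    exact hp.one_lt.ne' (Nat.dvd_one.1 h1)
  have hkm : k.Coprime m := Nat.Coprime.coprime_dvd_right (dvd_mul_left m p) hk
  have hak : IsPrimitiveRoot (a ^ k) m := ha.pow_of_coprime k hkm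
  have hR := fun f => rpx p m (ResidueField A) a f k D hp hm1 ha hkD hkp
  have hzK : IsPrimitiveRoot (z : K) (p * m) :=
    hz.map_of_injective (f := A.subtype) Subtype.val_injective
  have hx : IsPrimitiveRoot ((z : K) ^ k) (p * m) := hzK.pow_of_coprime k hk
  obtain ⟨hg0, hgr0, -⟩ := CYE.abs (p * m) g h F K ((z : K) ^ k) hx
  obtain ⟨i1, i2, i3⟩ := idn p m g h hp hm hpm F K ((z : K) ^ k) hx
  have hev : ∀ (r : ℕ) (f : ℤ[X]), aeval (z : K) (expand ℤ r f) = aeval ((z : K) ^ r) f :=
    fun r f => expand_aeval r f (z : K)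
  have hinv : a ^ k * (a ^ k)⁻¹ = 1 := mul_inv_cancel₀ (pow_ne_zero _ ha0)
  have hrm : ∀ f : ℤ[X], rootMultiplicity (a ^ k) (red (ResidueField A) f.reverse) =
      rootMultiplicity (a ^ k)⁻¹ (red (ResidueField A) f) :=
    fun f => (rmu _ f _ _ hinv).1
  have hcu := hMin p m g h FF (ResidueField A) (a ^ k) hak
  have hcv := hMin p m g h FF (ResidueField A) (a ^ k)⁻¹ hak.inv
  have hmL : NeZero (m : ResidueField A) :=
    ⟨fun h => hpm ((CharP.cast_eq_zero_iff (ResidueField A) p m).1 h)⟩
  have hsep : c0.Separable := by rw [hc0]; exact separable_cyclotomic m _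
  have hccy : rootMultiplicity (a ^ k) c0 ≤ 1 := rootMultiplicity_le_one_of_separable hsep _
  have hmS : ∀ f : ℤ[X], rootMultiplicity 1 (S (a ^ k) D (red (ResidueField A) f)) =
      rootMultiplicity (a ^ k) (red (ResidueField A) f) := fun f => (hR f).2.1
  have hκ : (red (ResidueField A) (derivative (cyclotomic m ℤ))).eval (a ^ (p * k)) ≠ 0 := by
    have h1 : red (ResidueField A) (derivative (cyclotomic m ℤ)) = derivative c0 := by
      rw [← hredc]
      exact (derivative_map _ _).symm
    have h2 : IsPrimitiveRoot (a ^ (p * k)) m :=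
      ha.pow_of_coprime _ (Nat.Coprime.mul_left hcop hkm)
    have h3 : IsRoot c0 (a ^ (p * k)) := by rw [hc0]; exact isRoot_cyclotomic_iff.2 h2
    have h4 := hsep.eval₂_derivative_ne_zero (RingHom.id (ResidueField A))
      (x := a ^ (p * k)) (by
        rw [eval₂_id]
        exact h3)
    rw [eval₂_id] at h4
    rwa [h1]
  unfold Ax Bx
  rw [expand_comp, expand_comp, ← hΔ_def]
  have t1 : ∀ x : ResidueField A, rootMultiplicity x (red (ResidueField A) h) <
      rootMultiplicity x (red (ResidueField A) g) → ty g h x = true := by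
    intro x hb
    unfold ty
    exact decide_eq_true hb
  have t0 : ∀ x : ResidueField A, ¬ rootMultiplicity x (red (ResidueField A) h) <
      rootMultiplicity x (red (ResidueField A) g) → ty g h x = false := by
    intro x hb
    unfold ty
    exact decide_eq_false hb
  by_cases h1 : rootMultiplicity (a ^ k) (red (ResidueField A) h) <
      rootMultiplicity (a ^ k) (red (ResidueField A) g) <;>
    by_cases h2 : rootMultiplicity (a ^ k)⁻¹ (red (ResidueField A) h) <
      rootMultiplicity (a ^ k)⁻¹ (red (ResidueField A) g)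
  · -- both big
    rw [t1 _ h1, t1 _ h2]
    have hN : Am (ResidueField A) m g h true true = (Nh + Δ) - Nhr := by
      rw [Am, ← hΔ_def, ← hNh, ← hNhr]
      ring
    rw [hN]
    have hneg : red (ResidueField A) (-(X * h)) = (-X) * red (ResidueField A) h := by
      unfold red
      rw [Polynomial.map_neg, Polynomial.map_mul, Polynomial.map_X, neg_mul]
    have hnegne : red (ResidueField A) (-(X * h)) ≠ 0 := by
      rw [hneg]
      exact mul_ne_zero (neg_ne_zero.2 hX) hhne
    refine mk_rep 0 (expand ℤ k (-(X * h))) (expand ℤ k h.reverse)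
      (S (a ^ k) D (red _ (-(X * h)))) (S (a ^ k) D (red _ h.reverse)) ?_ (hR _).1 (hR _).1
      ((hR _).2.2 hnegne) ((hR _).2.2 hhrne) ?_ (S_ld e11) (S_ld ehr) ?_
    · rw [hev, hev, zpow_zero, mul_one, uu, map_neg, map_mul, aeval_X, div_mul_eq_mul_div, i3]
      field_simp
    · rw [hmS, hmS, hrm, hneg, rootMultiplicity_mul (by rw [← hneg]; exact hnegne),
        rootMultiplicity_eq_zero (p := -X) (by
          rw [IsRoot, eval_neg, eval_X, neg_eq_zero]
          exact pow_ne_zero _ ha0)]
      rw [min_eq_right h1.le] at hcu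
      rw [min_eq_right h2.le] at hcv
      omega
    · rw [S_sub, mul_sub]
  · -- big at b only
    rw [t1 _ h1, t0 _ h2]
    have hN : Am (ResidueField A) m g h true false = (Ngr + (Nh + Nc)) - (-Δ) := by
      rw [Am, ← hΔ_def, ← hNgr, ← hNh, ← hc0, ← hNc]
      ring
    rw [hN]
    have hprod : red (ResidueField A) (g.reverse * (h * cyclotomic m ℤ)) ≠ 0 := by
      rw [hredm, hredm, hredc]
      exact mul_ne_zero hgrne (mul_ne_zero hhne hc0ne)
    have hκ' : a ^ ((p - 1) * k) *
        (red (ResidueField A) (derivative (cyclotomic m ℤ))).eval (a ^ (p * k)) ≠ 0 :=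
      mul_ne_zero (pow_ne_zero _ ha0) hκ
    refine mk_rep 1 (expand ℤ k (g.reverse * (h * cyclotomic m ℤ)))
      (X ^ ((p - 1) * k) * expand ℤ (p * k) (derivative (cyclotomic m ℤ)))
      (S (a ^ k) D (red _ (g.reverse * (h * cyclotomic m ℤ))))
      (C (a ^ ((p - 1) * k) *
        (red (ResidueField A) (derivative (cyclotomic m ℤ))).eval (a ^ (p * k))) *
          X ^ ((p - 1) * k)) ?_ (hR _).1 (special a _ _ _) ((hR _).2.2 hprod)
      (mul_ne_zero (C_ne_zero.2 hκ') (pow_ne_zero _ hX)) ?_ (S_ld e10)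
      (M2 := C (D : ResidueField A) * S (a ^ k) D (-Δ)) ?_ ?_
    · rw [hev, map_mul, map_pow, aeval_X, hev, zpow_one, uu, map_mul, map_mul]
      have h3 : ((z : K) ^ k) ^ (p - 1) = (z : K) ^ ((p - 1) * k) := by
        rw [← pow_mul, mul_comm]
      have h4 : ((z : K) ^ k) ^ p = (z : K) ^ (p * k) := by
        rw [← pow_mul, mul_comm]
      rw [h3, h4] at i1
      rw [mul_assoc, ← i1]
      field_simp
    · rw [hmS, mult_const hκ', hredm, hredm, hredc,
        rootMultiplicity_mul (by rw [← hredc, ← hredm, ← hredm]; exact hprod),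
        rootMultiplicity_mul (mul_ne_zero hhne hc0ne), hrm]
      rw [min_eq_right h1.le] at hcu
      rw [min_eq_left (not_lt.1 h2)] at hcv
      omega
    · rw [ld_const, S_neg]
      have h3 : (((p - 1) * k : ℕ) : ResidueField A) = -(D : ResidueField A) := by
        rw [Nat.cast_mul, Nat.cast_sub hp.one_le, hpL, Nat.cast_one,
          (CharP.natCast_eq_natCast (ResidueField A) p).2 hkD]
        ring
      rw [h3, C_neg]
      ring
    · rw [S_sub, mul_sub]
  · -- big at -b only
    rw [t0 _ h1, t1 _ h2]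
    have hN : Am (ResidueField A) m g h false true = 0 - (Nhr + (Ng + Nc)) := by
      rw [Am, ← hΔ_def, ← hNhr, ← hNg, ← hc0, ← hNc]
      ring
    rw [hN]
    have hprod : red (ResidueField A) (h.reverse * (g * cyclotomic m ℤ)) ≠ 0 := by
      rw [hredm, hredm, hredc]
      exact mul_ne_zero hhrne (mul_ne_zero hgne hc0ne)
    have hκ' : -(a ^ (p * k) *
        (red (ResidueField A) (derivative (cyclotomic m ℤ))).eval (a ^ (p * k))) ≠ 0 :=
      neg_ne_zero.2 (mul_ne_zero (pow_ne_zero _ ha0) hκ)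
    refine mk_rep (-1) (-(X ^ (p * k) * expand ℤ (p * k) (derivative (cyclotomic m ℤ))))
      (expand ℤ k (h.reverse * (g * cyclotomic m ℤ)))
      (C (-(a ^ (p * k) *
        (red (ResidueField A) (derivative (cyclotomic m ℤ))).eval (a ^ (p * k)))) *
          X ^ (p * k))
      (S (a ^ k) D (red _ (h.reverse * (g * cyclotomic m ℤ)))) ?_ ?_ (hR _).1
      (mul_ne_zero (C_ne_zero.2 hκ') (pow_ne_zero _ hX)) ((hR _).2.2 hprod) ?_
      (M1 := 0) ?_ (S_ld e01) ?_
    · have h6 : aeval (z : K) (-(X ^ (p * k) * expand ℤ (p * k) (derivative (cyclotomic m ℤ)))) =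
          -((z : K) ^ (p * k) * aeval ((z : K) ^ (p * k)) (derivative (cyclotomic m ℤ))) := by
        rw [map_neg, map_mul, map_pow, aeval_X, hev]
      rw [h6, hev, uu, map_mul, map_mul]
      have h4 : ((z : K) ^ k) ^ p = (z : K) ^ (p * k) := by
        rw [← pow_mul, mul_comm]
      rw [h4] at i2
      have hp0 : (p : K) ≠ 0 := Nat.cast_ne_zero.2 hp.ne_zero
      rw [zpow_neg_one]
      have h5 : aeval ((z : K) ^ k) g.reverse / aeval ((z : K) ^ k) g * (p : K)⁻¹ *
          (aeval ((z : K) ^ k) h.reverse * (aeval ((z : K) ^ k) g *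
            aeval ((z : K) ^ k) (cyclotomic m ℤ))) =
          (p : K)⁻¹ * (aeval ((z : K) ^ k) g.reverse * (aeval ((z : K) ^ k) h.reverse *
            aeval ((z : K) ^ k) (cyclotomic m ℤ))) := by
        field_simp
      rw [h5, i2]
      field_simp
    · have h3 : (red (ResidueField A)
          (-(X ^ (p * k) * expand ℤ (p * k) (derivative (cyclotomic m ℤ))))).comp
            (C a * X) - C (-(a ^ (p * k) *
        (red (ResidueField A) (derivative (cyclotomic m ℤ))).eval (a ^ (p * k)))) *
          X ^ (p * k) = -((red (ResidueField A)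
          (X ^ (p * k) * expand ℤ (p * k) (derivative (cyclotomic m ℤ)))).comp
            (C a * X) - C (a ^ (p * k) *
        (red (ResidueField A) (derivative (cyclotomic m ℤ))).eval (a ^ (p * k))) *
          X ^ (p * k)) := by
        have h4 : red (ResidueField A)
          (-(X ^ (p * k) * expand ℤ (p * k) (derivative (cyclotomic m ℤ)))) =
          -(red (ResidueField A)
          (X ^ (p * k) * expand ℤ (p * k) (derivative (cyclotomic m ℤ)))) :=
          Polynomial.map_neg _
        rw [h4, neg_comp, C_neg]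
        ring
      rw [h3]
      exact dvd_neg.2 (special a _ _ _)
    · rw [hmS, mult_const hκ', hredm, hredm, hredc,
        rootMultiplicity_mul (by rw [← hredc, ← hredm, ← hredm]; exact hprod),
        rootMultiplicity_mul (mul_ne_zero hgne hc0ne), hrm]
      rw [min_eq_left (not_lt.1 h1)] at hcu
      rw [min_eq_right h2.le] at hcv
      omega
    · rw [ld_const]
      have h3 : ((p * k : ℕ) : ResidueField A) = 0 := by
        rw [Nat.cast_mul, hpL, zero_mul]
      rw [h3]
      simp
    · rw [S_sub]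
      unfold S
      rw [zero_comp]
      ring
  · -- not big
    rw [t0 _ h1, t0 _ h2]
    have hN : Am (ResidueField A) m g h false false = Ngr - Ng := by
      rw [Am, ← hΔ_def, ← hNgr, ← hNg]
    rw [hN]
    refine mk_rep 0 (expand ℤ k g.reverse) (expand ℤ k g)
      (S (a ^ k) D (red _ g.reverse)) (S (a ^ k) D (red _ g)) ?_ (hR _).1 (hR _).1
      ((hR _).2.2 hgrne) ((hR _).2.2 hgne) ?_ (S_ld egr) (S_ld eg) ?_
    · rw [hev, hev, zpow_zero, mul_one, uu, div_mul_cancel₀ _ hg0]
    · rw [hmS, hmS, hrm]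
      rw [min_eq_left (not_lt.1 h1)] at hcu
      rw [min_eq_left (not_lt.1 h2)] at hcv
      omega
    · rw [S_sub, mul_sub]

end Pool.Agent.CYE.H51R
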