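import Pool.Agent.Helper66_CYD.Fct
import Pool.Agent.Helper51_CYE.Min

/-! # CYE: module FCB (the factorisation modulo `p`) -/

set_option autoImplicit false

open Polynomial IsLocalRing

namespace Pool.Agent.CYE.H51

open Pool.Agent.CYD Pool.Agent.CYD.H66

/-- FCB: the factorisation modulo `p`. -/
def FcbStmt : Prop :=
  ∀ (p m : ℕ) (g h : ℤ[X]), p.Prime → 3 ≤ m → ¬ p ∣ m.totient → Fg (p * m) g h →
    ∀ (L : Type) [Field L] [CharP L p],
    red L g * red L h =
      -(cyclotomic m L ^ (p - 2) * derivative (cyclotomic m L)) ∧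
    red L g.reverse * red L h.reverse =
      -(cyclotomic m L ^ (p - 2) * (derivative (cyclotomic m L)).reverse) ∧
    X * derivative (cyclotomic m L) + (derivative (cyclotomic m L)).reverse =
      C ((m.totient : ℕ) : L) * cyclotomic m L ∧
    (derivative (cyclotomic m L)).natDegree + 1 = m.totient ∧
    (derivative (cyclotomic m L)).reverse.natDegree + 1 = m.totient ∧
    (red L g).natDegree = g.natDegree ∧ (red L g).reverse = red L g.reverse ∧
    (red L g).coeff 0 ≠ 0 ∧ (red L g.reverse).coeff 0 ≠ 0 ∧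
    (red L h).coeff 0 ≠ 0 ∧ (red L h.reverse).coeff 0 ≠ 0 ∧
    (derivative (cyclotomic m L)).coeff 0 ≠ 0

theorem fcb (hRev : RevStmt) (hBas : BasStmt) (hCoe : CoeStmt) : FcbStmt := by
  intro p m g h hp hm hpφ F L _ _
  have : Fact p.Prime := ⟨hp⟩
  have hcop : p.Coprime m := Nat.coprime_of_squarefree_mul F.hs
  have hndvd : ¬ p ∣ m := fun hd => by
    rw [Nat.Prime.coprime_iff_not_dvd hp] at hcop
    exact hcop hd
  have hsqf : Squarefree m := F.hs.squarefree_of_dvd (Dvd.intro_left p rfl)
  have hφ0 : 0 < m.totient := Nat.totient_pos.mpr (by omega)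
  have hφL : ((m.totient : ℕ) : L) ≠ 0 := by
    intro h0
    rw [CharP.cast_eq_zero_iff L p] at h0
    exact hpφ h0
  have hp1 : ((p - 1 : ℕ) : L) = -1 := by
    rw [Nat.cast_sub hp.one_lt.le, CharP.cast_eq_zero L p]
    simp
  have htot : (p * m).totient = (p - 1) * m.totient := by
    rw [Nat.totient_mul hcop, Nat.totient_prime hp]
  have htotL : (((p * m).totient : ℕ) : L) = -((m.totient : ℕ) : L) := by
    rw [htot, Nat.cast_mul, hp1]
    ring
  obtain ⟨hg0, _, hlc, _⟩ := hBas (p * m) g h F
  obtain ⟨hh0, _, _, _⟩ := hBas (p * m) h g F.swap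
  have hlcL : ((g.leadingCoeff : ℤ) : L) * ((h.leadingCoeff : ℤ) : L) ≠ 0 := by
    rw [← Int.cast_mul, hlc, Int.cast_natCast, htotL]
    exact neg_ne_zero.mpr hφL
  have hlcg : ((g.leadingCoeff : ℤ) : L) ≠ 0 := left_ne_zero_of_mul hlcL
  have hlch : ((h.leadingCoeff : ℤ) : L) ≠ 0 := right_ne_zero_of_mul hlcL
  -- the cyclotomic polynomial in characteristic `p`
  have hcyc : cyclotomic (p * m) L = cyclotomic m L ^ (p - 1) := by
    rw [mul_comm]
    exact cyclotomic_mul_prime_eq_pow_of_not_dvd L hndvd
  have hredd : ∀ k : ℕ, red L (derivative (cyclotomic k ℤ)) = derivative (cyclotomic k L) := by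
    intro k
    unfold red
    rw [← derivative_map, map_cyclotomic_int]
  have hredc : ∀ k : ℕ, red L (cyclotomic k ℤ) = cyclotomic k L := fun k =>
    map_cyclotomic_int k L
  have hder : derivative (cyclotomic (p * m) L) =
      -(cyclotomic m L ^ (p - 2) * derivative (cyclotomic m L)) := by
    rw [hcyc, derivative_pow, hp1, show p - 1 - 1 = p - 2 by omega]
    simp only [C_neg, C_1]
    ring
  -- the leading coefficient of the derivative
  have hnd : (derivative (cyclotomic m ℤ)).natDegree = m.totient - 1 := by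
    rw [natDegree_derivative, natDegree_cyclotomic]
  have hlcd : ((((derivative (cyclotomic m ℤ)).leadingCoeff : ℤ)) : L) ≠ 0 := by
    rw [leadingCoeff_derivative, (cyclotomic.monic m ℤ).leadingCoeff, natDegree_cyclotomic,
      one_mul, Int.cast_natCast]
    exact hφL
  obtain ⟨hnd', hrev'⟩ := red_reverse hlcd
  rw [hredd] at hnd' hrev'
  -- the identity for `m`
  have h3 : X * derivative (cyclotomic m L) + (derivative (cyclotomic m L)).reverse =
      C ((m.totient : ℕ) : L) * cyclotomic m L := by
    have h1 := congrArg (red L) (hRev m hm)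
    rw [red_add, red_mul, red_mul, hredd, hredc, ← hrev'] at h1
    have h2 : red L (X : ℤ[X]) = X := Polynomial.map_X _
    have h4 : red L (C ((m.totient : ℕ) : ℤ)) = C ((m.totient : ℕ) : L) := by
      unfold red
      rw [map_C]
      simp
    rw [h2, h4] at h1
    exact h1
  have h3' : X * derivative (cyclotomic (p * m) L) +
      red L (derivative (cyclotomic (p * m) ℤ)).reverse =
      C (((p * m).totient : ℕ) : L) * cyclotomic (p * m) L := by
    have h1 := congrArg (red L) (hRev (p * m) F.hn)
    rw [red_add, red_mul, red_mul, hredd, hredc] at h1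
    have h2 : red L (X : ℤ[X]) = X := Polynomial.map_X _
    have h4 : red L (C (((p * m).totient : ℕ) : ℤ)) = C (((p * m).totient : ℕ) : L) := by
      unfold red
      rw [map_C]
      simp
    rw [h2, h4] at h1
    exact h1
  have h6 : (derivative (cyclotomic m L)).coeff 0 ≠ 0 := by
    rw [← hredd, red_coeff, coeff_derivative]
    have h7 := (hCoe m hsqf (by omega)).2
    simp only [zero_add, Nat.cast_zero, mul_one]
    exact cast_pm_one h7
  refine ⟨?_, ?_, h3, ?_, ?_, (red_reverse hlcg).1, (red_reverse hlcg).2, ?_, ?_, ?_, ?_, h6⟩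
  · rw [← red_mul, F.fac, hredd, hder]
  · rw [← red_mul, ← reverse_mul_of_domain, F.fac]
    rw [hder, hcyc, htotL] at h3'
    have h5 : p - 1 = p - 2 + 1 := by have := hp.two_le; omega
    rw [h5, pow_succ] at h3'
    rw [C_neg] at h3'
    linear_combination h3' + (cyclotomic m L ^ (p - 2)) * h3
  · rw [hnd', hnd]
    omega
  · rw [reverse_natDegree]
    rw [natTrailingDegree_eq_zero.mpr (Or.inr h6), hnd', hnd]
    omega
  · rw [red_coeff]
    exact cast_pm_one hg0
  · rw [red_coeff, coeff_zero_reverse]
    exact hlcg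
  · rw [red_coeff]
    exact cast_pm_one hh0
  · rw [red_coeff, coeff_zero_reverse]
    exact hlch

end Pool.Agent.CYE.H51
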