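import Pool.Agent.Helper50_CYD.Rpb
import Pool.Agent.Helper51_CYE.Fcb
import Pool.Agent.Helper51_CYE.Min

/-! # CYE: module RBB (the representations of `u(k)`, refined) -/

set_option autoImplicit false

open Polynomial IsLocalRing

namespace Pool.Agent.CYE.H51

open Pool.Agent.CYD Pool.Agent.CYD.H50R

/-- The common denominator `Δ = Φ_m Φ_m' Φ_m'^*`. -/
noncomputable def Dl (L : Type) [Field L] (m : ℕ) : L[X] :=
  cyclotomic m L * derivative (cyclotomic m L) * (derivative (cyclotomic m L)).reverse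

/-- `Δ V`, `V` = logarithmic derivative of `X Φ_m' / Φ_m`. -/
noncomputable def VV (L : Type) [Field L] (m : ℕ) : L[X] :=
  (derivative (cyclotomic m L)).reverse * (cyclotomic m L * derivative (cyclotomic m L) +
    X * (derivative (derivative (cyclotomic m L)) * cyclotomic m L -
      derivative (cyclotomic m L) ^ 2))

/-- `Δ V'`, `V'` = logarithmic derivative of `Φ_m / Φ_m'^*`. -/
noncomputable def VW (L : Type) [Field L] (m : ℕ) : L[X] :=
  derivative (cyclotomic m L) * (X * (derivative (cyclotomic m L) *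
    (derivative (cyclotomic m L)).reverse - cyclotomic m L *
      derivative (derivative (cyclotomic m L)).reverse))

/-- The order of `(X Φ_m')'` at `a ^ b`. -/
noncomputable def jj {L : Type} [Field L] (a : L) (m b : ℕ) : ℕ :=
  rootMultiplicity (a ^ b) (derivative (X * derivative (cyclotomic m L)))

open Classical in
/-- The type of `b`. -/
noncomputable def ty (g h : ℤ[X]) {L : Type} [Field L] (a : L) (b : ℕ) : ℕ :=
  if rootMultiplicity (a ^ b) (red L h) < rootMultiplicity (a ^ b) (red L g) then 1 else 0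

/-- `N / P` has at most simple poles. -/
def SP {L : Type} [Field L] (N P : L[X]) : Prop :=
  ∀ (c : L) (v : ℕ), (X - C c) ^ v ∣ P → (X - C c) ^ v ∣ (X - C c) * N

/-- RBB: the representations of `u(k)`. -/
def RbbStmt : Prop :=
  ∀ (p m : ℕ) (g h : ℤ[X]), p.Prime → 3 ≤ m → ¬ p ∣ m.totient → Fg (p * m) g h →
    ∀ (K : Type) [Field K] [CharZero K] (A : ValuationSubring K) (z : A),
    (p : A) ∈ maximalIdeal A → IsPrimitiveRoot z (p * m) →
    ∃ N0 : (ResidueField A)[X], N0.natDegree ≤ 3 * m.totient ∧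
      (∀ e e' : ℕ, SP (N0 + C (e : ResidueField A) * VV (ResidueField A) m +
        C (e' : ResidueField A) * VW (ResidueField A) m) (Dl (ResidueField A) m)) ∧
      ∀ k D : ℕ, k.Coprime (p * m) → k ≡ D [MOD p] →
        Rep p A z (uu g ((z : K) ^ k))
          (C (D : ResidueField A) *
            (N0 + C ((ty g h (residue A z) k : ℕ) : ResidueField A) * VV (ResidueField A) m +
              C ((ty g h (residue A z) ((m - 1) * k) : ℕ) : ResidueField A) *
                VW (ResidueField A) m).comp (C (residue A z ^ k) * X ^ D))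
          ((Dl (ResidueField A) m).comp (C (residue A z ^ k) * X ^ D))
          (jj (residue A z) m k + jj (residue A z) m ((m - 1) * k) + 1)

section aux

variable {L : Type} [Field L]

theorem SP.add {N N' P : L[X]} (h : SP N P) (h' : SP N' P) : SP (N + N') P := by
  intro c v hv
  rw [mul_add]
  exact dvd_add (h c v hv) (h' c v hv)

theorem SP.sub {N N' P : L[X]} (h : SP N P) (h' : SP N' P) : SP (N - N') P := by
  intro c v hv
  rw [mul_sub]
  exact dvd_sub (h c v hv) (h' c v hv)

theorem SP.mul_left {N P : L[X]} (h : SP N P) (Q : L[X]) : SP (Q * N) P := by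
  intro c v hv
  have h1 : (X - C c) * (Q * N) = Q * ((X - C c) * N) := by ring
  rw [h1]
  exact Dvd.dvd.mul_left (h c v hv) _

theorem SP.self (P : L[X]) : SP P P := fun c v hv => Dvd.dvd.mul_left hv _

/-- logarithmic derivatives have simple poles -/
theorem SP.of_ld {N f Δ : L[X]} (hf : f ≠ 0) (h : N * f = Δ * (X * derivative f)) : SP N Δ := by
  intro c v hv
  obtain ⟨f1, hf1, hf1c⟩ := exists_eq_pow_rootMultiplicity_mul_and_not_dvd f hf c
  obtain ⟨s, hs⟩ : ∃ s, s = rootMultiplicity c f := ⟨_, rfl⟩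
  rw [← hs] at hf1
  have h1 : (X - C c) * derivative f = (X - C c) ^ s * (C (s : L) * f1 +
      (X - C c) * derivative f1) := by
    conv_lhs => rw [hf1]
    rw [derivative_mul, derivative_X_sub_C_pow]
    rcases Nat.eq_zero_or_pos s with h0 | h0
    · subst h0
      simp
    · have h2 : (X - C c) ^ s = (X - C c) ^ (s - 1) * (X - C c) := by
        rw [← pow_succ, Nat.sub_add_cancel h0]
      rw [h2]
      ring
  have h2 : (X - C c) ^ s * ((X - C c) * N * f1) =
      (X - C c) ^ s * (Δ * (X * (C (s : L) * f1 + (X - C c) * derivative f1))) := by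
    have h3 : (X - C c) ^ s * ((X - C c) * N * f1) = (X - C c) * (N * f) := by
      conv_rhs => rw [hf1]
      ring
    rw [h3, h]
    linear_combination (Δ * X) * h1
  have h3 := mul_left_cancel₀ (pow_ne_zero s (X_sub_C_ne_zero c)) h2
  have h4 : (X - C c) ^ v ∣ (X - C c) * N * f1 := by
    rw [h3]
    exact hv.mul_right _
  have h5 : IsCoprime ((X - C c) ^ v) f1 := by
    refine IsCoprime.pow_left ?_
    exact (irreducible_X_sub_C c).coprime_iff_not_dvd.2 hf1c
  exact h5.dvd_of_dvd_mul_right h4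

theorem ld_pow {Δ q N : L[X]} (h1 : N * q = Δ * (X * derivative q)) (n : ℕ) :
    (C (n : L) * N) * q ^ n = Δ * (X * derivative (q ^ n)) := by
  rcases Nat.eq_zero_or_pos n with h0 | h0
  · subst h0
    simp
  · rw [derivative_pow]
    have h2 : q ^ n = q ^ (n - 1) * q := by
      rw [← pow_succ, Nat.sub_add_cancel h0]
    have h3 : (C (n : L) : L[X]) = (n : L[X]) := by simp
    rw [h2, h3]
    linear_combination ((n : L[X]) * q ^ (n - 1)) * h1

end aux

theorem rbb (hRad : RadStmt) (hRpx : RpxStmt) (hIdn : IdnStmt) (hFcb : FcbStmt)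
    (hMin : MinStmt) (hRmu : RmuStmt) (hAbs : AbsStmt) : RbbStmt := by
  intro p m g h hp hm hpφ F K _ _ A z hpA hz
  classical
  have := Fact.mk hp
  have hcop : p.Coprime m := Nat.coprime_of_squarefree_mul F.hs
  have hpm : ¬ p ∣ m := fun hd => by
    have h1 := hcop
    rw [Nat.Prime.coprime_iff_not_dvd hp] at h1
    exact h1 hd
  have hpL : (p : ResidueField A) = 0 := by
    have h1 := (IsLocalRing.residue_eq_zero_iff (R := A) (p : A)).2 hpA
    rwa [map_natCast] at h1
  have hchar : CharP (ResidueField A) p :=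
    (CharP.charP_iff_prime_eq_zero hp).2 hpL
  have ha : IsPrimitiveRoot (residue A z) m := prim_residue hp hpm A z hz
  obtain ⟨f1, f2, f3, f4, f5, f6, f7, f8, f9, f10, f11, f12⟩ :=
    hFcb p m g h hp hm hpφ F (ResidueField A)
  set a := residue A z with ha_def
  have hm2 : 2 ≤ m.totient := by
    have h1 := Nat.totient_even (show 2 < m by omega)
    have h2 := Nat.totient_pos.2 (show 0 < m by omega)
    obtain ⟨r, hr⟩ := h1
    omega
  have hp2 : 2 ≤ p := hp.two_le
  obtain ⟨c0, hc0⟩ : ∃ c0 : (ResidueField A)[X], c0 = cyclotomic m (ResidueField A) := ⟨_, rfl⟩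
  obtain ⟨c1, hc1⟩ : ∃ c1 : (ResidueField A)[X], c1 = derivative c0 := ⟨_, rfl⟩
  obtain ⟨c2, hc2⟩ : ∃ c2 : (ResidueField A)[X], c2 = c1.reverse := ⟨_, rfl⟩
  have hT0 : derivative (X * c1) ≠ 0 := by
    intro h0
    have h1 := congrArg (fun q => coeff q 0) h0
    simp only [coeff_derivative, coeff_X_mul, coeff_zero] at h1
    rw [hc1, hc0] at h1
    apply f12
    simpa using h1
  have hmin : ∀ b : ℕ, b.Coprime m → min (rootMultiplicity (a ^ b) (red (ResidueField A) g))
      (rootMultiplicity (a ^ b) (red (ResidueField A) h)) ≤ jj a m b := by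
    intro b hb
    unfold jj
    rw [← hc0, ← hc1, le_rootMultiplicity_iff hT0, hc1, hc0]
    exact hMin p m g h hp hm F (ResidueField A) (a ^ b) (ha.pow_of_coprime b hb)
  rw [← hc0, ← hc1] at f1 f2 f3 f4 f5 f12
  rw [← hc2] at f2 f3 f5
  have hc0ne : c0 ≠ 0 := by rw [hc0]; exact cyclotomic_ne_zero m _
  have hc1ne : c1 ≠ 0 := by
    intro h0
    rw [h0, natDegree_zero] at f4
    omega
  have hc2ne : c2 ≠ 0 := by
    intro h0
    rw [h0, natDegree_zero] at f5
    omega
  obtain ⟨Δ, hΔ_def⟩ : ∃ Δ : (ResidueField A)[X], Δ = c0 * c1 * c2 := ⟨_, rfl⟩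
  have hΔ : Δ ≠ 0 := by
    rw [hΔ_def]
    exact mul_ne_zero (mul_ne_zero hc0ne hc1ne) hc2ne
  have hΔd : Δ.natDegree ≤ 3 * m.totient := by
    rw [hΔ_def, natDegree_mul (mul_ne_zero hc0ne hc1ne) hc2ne, natDegree_mul hc0ne hc1ne, hc0,
      natDegree_cyclotomic]
    omega
  have hgne : red (ResidueField A) g ≠ 0 := fun h0 => f8 (by rw [h0, coeff_zero])
  have hgrne : red (ResidueField A) g.reverse ≠ 0 := fun h0 => f9 (by rw [h0, coeff_zero])
  have hhne : red (ResidueField A) h ≠ 0 := fun h0 => f10 (by rw [h0, coeff_zero])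
  have hhrne : red (ResidueField A) h.reverse ≠ 0 := fun h0 => f11 (by rw [h0, coeff_zero])
  have hd1 : red (ResidueField A) g * red (ResidueField A) h ∣ Δ ^ (p - 2 + 1) := by
    rw [f1, neg_dvd, pow_succ, hΔ_def]
    refine mul_dvd_mul (pow_dvd_pow_of_dvd ((dvd_mul_right _ _).trans (dvd_mul_right _ _)) _) ?_
    exact (dvd_mul_left _ _).trans (dvd_mul_right _ _)
  have hd2 : red (ResidueField A) g.reverse * red (ResidueField A) h.reverse ∣
      Δ ^ (p - 2 + 1) := by
    rw [f2, neg_dvd, pow_succ, hΔ_def]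
    refine mul_dvd_mul (pow_dvd_pow_of_dvd ((dvd_mul_right _ _).trans (dvd_mul_right _ _)) _) ?_
    exact dvd_mul_left _ _
  obtain ⟨Ng, dg, eg⟩ := hRad _ (red (ResidueField A) g) Δ (p - 2 + 1) hΔ
    ((dvd_mul_right _ _).trans hd1)
  obtain ⟨Nh, dh, eh⟩ := hRad _ (red (ResidueField A) h) Δ (p - 2 + 1) hΔ
    ((dvd_mul_left _ _).trans hd1)
  obtain ⟨Ngr, dgr, egr⟩ := hRad _ (red (ResidueField A) g.reverse) Δ (p - 2 + 1) hΔ
    ((dvd_mul_right _ _).trans hd2)
  obtain ⟨Nhr, dhr, ehr⟩ := hRad _ (red (ResidueField A) h.reverse) Δ (p - 2 + 1) hΔ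
    ((dvd_mul_left _ _).trans hd2)
  -- the logarithmic derivatives of `c0`, `c1`, `c2`
  obtain ⟨Nc, hNc⟩ : ∃ Nc : (ResidueField A)[X], Nc = c1 * c2 * (X * derivative c0) := ⟨_, rfl⟩
  obtain ⟨Nc1, hNc1⟩ : ∃ Nc : (ResidueField A)[X], Nc = c0 * c2 * (X * derivative c1) := ⟨_, rfl⟩
  obtain ⟨Nc2, hNc2⟩ : ∃ Nc : (ResidueField A)[X], Nc = c0 * c1 * (X * derivative c2) := ⟨_, rfl⟩
  have ec : Nc * c0 = Δ * (X * derivative c0) := by rw [hNc, hΔ_def]; ring
  have ec1 : Nc1 * c1 = Δ * (X * derivative c1) := by rw [hNc1, hΔ_def]; ring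
  have ec2 : Nc2 * c2 = Δ * (X * derivative c2) := by rw [hNc2, hΔ_def]; ring
  have hp2L : ((p - 2 : ℕ) : ResidueField A) = -2 := by
    rw [Nat.cast_sub hp2, hpL]
    norm_num
  have hNh : Nh = -Ng - 2 * Nc + Nc1 := by
    have e1 := ld_mul eg eh
    have e2 := ld_mul (ld_pow ec (p - 2)) ec1
    have e3 : red (ResidueField A) g * red (ResidueField A) h =
        -(c0 ^ (p - 2) * c1) := f1
    rw [e3, derivative_neg] at e1
    have e4 : (Ng + Nh) * (c0 ^ (p - 2) * c1) =
        (C ((p - 2 : ℕ) : ResidueField A) * Nc + Nc1) * (c0 ^ (p - 2) * c1) := by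
      linear_combination -e1 - e2
    have e5 := mul_right_cancel₀ (mul_ne_zero (pow_ne_zero _ hc0ne) hc1ne) e4
    rw [hp2L, C_neg] at e5
    have e6 : (C (2 : ResidueField A) : (ResidueField A)[X]) = 2 := rfl
    rw [e6] at e5
    linear_combination e5
  have hNhr : Nhr = -Ngr - 2 * Nc + Nc2 := by
    have e1 := ld_mul egr ehr
    have e2 := ld_mul (ld_pow ec (p - 2)) ec2
    have e3 : red (ResidueField A) g.reverse * red (ResidueField A) h.reverse =
        -(c0 ^ (p - 2) * c2) := f2
    rw [e3, derivative_neg] at e1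
    have e4 : (Ngr + Nhr) * (c0 ^ (p - 2) * c2) =
        (C ((p - 2 : ℕ) : ResidueField A) * Nc + Nc2) * (c0 ^ (p - 2) * c2) := by
      linear_combination -e1 - e2
    have e5 := mul_right_cancel₀ (mul_ne_zero (pow_ne_zero _ hc0ne) hc2ne) e4
    rw [hp2L, C_neg] at e5
    have e6 : (C (2 : ResidueField A) : (ResidueField A)[X]) = 2 := rfl
    rw [e6] at e5
    linear_combination e5
  have hDl : Dl (ResidueField A) m = Δ := by
    unfold Dl
    rw [← hc0, ← hc1, ← hc2, hΔ_def]
  have hVV : VV (ResidueField A) m = Δ + Nc1 - Nc := by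
    unfold VV
    rw [← hc0, ← hc1, ← hc2, hΔ_def, hNc, hNc1, ← hc1]
    ring
  have hVW : VW (ResidueField A) m = Nc - Nc2 := by
    unfold VW
    rw [← hc0, ← hc1, ← hc2, hNc, hNc2, ← hc1]
    ring
  have hredc : red (ResidueField A) (cyclotomic m ℤ) = c0 := by
    rw [hc0]
    exact map_cyclotomic_int _ _
  have hredm : ∀ f k : ℤ[X], red (ResidueField A) (f * k) =
      red (ResidueField A) f * red (ResidueField A) k := fun f k => Polynomial.map_mul _
  have e10 : (Ngr + (Nh + Nc)) * red (ResidueField A) (g.reverse * (h * cyclotomic m ℤ)) =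
      Δ * (X * derivative (red (ResidueField A) (g.reverse * (h * cyclotomic m ℤ)))) := by
    rw [hredm, hredm, hredc]
    exact ld_mul egr (ld_mul eh ec)
  have e01 : (Nhr + (Ng + Nc)) * red (ResidueField A) (h.reverse * (g * cyclotomic m ℤ)) =
      Δ * (X * derivative (red (ResidueField A) (h.reverse * (g * cyclotomic m ℤ)))) := by
    rw [hredm, hredm, hredc]
    exact ld_mul ehr (ld_mul eg ec)
  have e11 : (Nh + Δ) * red (ResidueField A) (-(X * h)) =
      Δ * (X * derivative (red (ResidueField A) (-(X * h)))) := by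
    have h1 : red (ResidueField A) (-(X * h)) = -(X * red (ResidueField A) h) := by
      unfold red
      rw [Polynomial.map_neg, Polynomial.map_mul, Polynomial.map_X]
    rw [h1]
    exact ld_negX eh
  have hX : (X : (ResidueField A)[X]) ≠ 0 := X_ne_zero
  have ha0 : a ≠ 0 := ha.ne_zero (by omega)
  refine ⟨Ngr - Ng, (natDegree_sub_le _ _).trans (max_le (dgr.trans hΔd) (dg.trans hΔd)), ?_, ?_⟩
  · intro e e'
    rw [hDl, hVV, hVW]
    have s1 : SP (Ngr - Ng) Δ := (SP.of_ld hgrne egr).sub (SP.of_ld hgne eg)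
    have s2 : SP (Δ + Nc1 - Nc) Δ :=
      ((SP.self Δ).add (SP.of_ld hc1ne ec1)).sub (SP.of_ld hc0ne ec)
    have s3 : SP (Nc - Nc2) Δ := (SP.of_ld hc0ne ec).sub (SP.of_ld hc2ne ec2)
    exact (s1.add (s2.mul_left _)).add (s3.mul_left _)
  intro k D hk hkD
  have hm1 : 1 ≤ m := by omega
  have hkp : ¬ p ∣ k := fun hd => by
    have h1 : p ∣ Nat.gcd k (p * m) := Nat.dvd_gcd hd (dvd_mul_right _ _)
    rw [Nat.Coprime] at hk
    rw [hk] at h1
    exact hp.one_lt.ne' (Nat.dvd_one.1 h1)
  have hkm : k.Coprime m := Nat.Coprime.coprime_dvd_right (dvd_mul_left m p) hk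
  have hak : IsPrimitiveRoot (a ^ k) m := ha.pow_of_coprime k hkm
  have hR := fun f => hRpx p m (ResidueField A) a f k D hp hm1 ha hkD hkp
  have hzK : IsPrimitiveRoot (z : K) (p * m) :=
    hz.map_of_injective (f := A.subtype) Subtype.val_injective
  have hx : IsPrimitiveRoot ((z : K) ^ k) (p * m) := hzK.pow_of_coprime k hk
  obtain ⟨hg0, hgr0, -⟩ := hAbs (p * m) g h F K ((z : K) ^ k) hx
  obtain ⟨i1, i2, i3⟩ := hIdn p m g h hp hm hpm F K ((z : K) ^ k) hx
  have hev : ∀ (r : ℕ) (f : ℤ[X]), aeval (z : K) (expand ℤ r f) = aeval ((z : K) ^ r) f :=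
    fun r f => expand_aeval r f (z : K)
  have hinv : a ^ k * a ^ ((m - 1) * k) = 1 := by
    rw [← pow_add]
    have h1 : k + (m - 1) * k = m * k := by
      obtain ⟨m', rfl⟩ : ∃ m', m = m' + 1 := ⟨m - 1, by omega⟩
      rw [Nat.add_sub_cancel]
      ring
    rw [h1, pow_mul, ha.pow_eq_one, one_pow]
  have hrm : ∀ f : ℤ[X], rootMultiplicity (a ^ k) (red (ResidueField A) f.reverse) =
      rootMultiplicity (a ^ ((m - 1) * k)) (red (ResidueField A) f) :=
    fun f => (hRmu _ f _ _ hinv).1
  have hcop1 : (m - 1).Coprime m := by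
    obtain ⟨m', rfl⟩ : ∃ m', m = m' + 1 := ⟨m - 1, by omega⟩
    rw [Nat.add_sub_cancel]
    simp
  have hcu := hmin k hkm
  have hcv := hmin ((m - 1) * k) (Nat.Coprime.mul_left hcop1 hkm)
  have hmL : NeZero (m : ResidueField A) :=
    ⟨fun h => hpm ((CharP.cast_eq_zero_iff (ResidueField A) p m).1 h)⟩
  have hsep : c0.Separable := by rw [hc0]; exact separable_cyclotomic m _
  have hccy : rootMultiplicity (a ^ k) c0 ≤ 1 := rootMultiplicity_le_one_of_separable hsep _
  have hmS : ∀ f : ℤ[X], rootMultiplicity 1 (S (a ^ k) D (red (ResidueField A) f)) =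
      rootMultiplicity (a ^ k) (red (ResidueField A) f) := fun f => (hR f).2.1
  have hκ : (red (ResidueField A) (derivative (cyclotomic m ℤ))).eval (a ^ (p * k)) ≠ 0 := by
    have h1 : red (ResidueField A) (derivative (cyclotomic m ℤ)) = derivative c0 := by
      rw [← hredc]
      exact (derivative_map _ _).symm
    have h2 : IsPrimitiveRoot (a ^ (p * k)) m :=
      ha.pow_of_coprime _ (Nat.Coprime.mul_left hcop hkm)
    have h3 : IsRoot c0 (a ^ (p * k)) := by rw [hc0]; exact isRoot_cyclotomic_iff.2 h2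
    have h4 := hsep.eval₂_derivative_ne_zero (RingHom.id (ResidueField A))
      (x := a ^ (p * k)) (by
        rw [eval₂_id]
        exact h3)
    rw [eval₂_id] at h4
    rwa [h1]
  rw [hDl, hVV, hVW]
  change Rep p A z (uu g ((z : K) ^ k)) (C (D : ResidueField A) * S (a ^ k) D _)
    (S (a ^ k) D Δ) _
  have t1 : ∀ b : ℕ, rootMultiplicity (a ^ b) (red (ResidueField A) h) <
      rootMultiplicity (a ^ b) (red (ResidueField A) g) → ty g h a b = 1 := by
    intro b hb
    unfold ty
    exact if_pos hb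
  have t0 : ∀ b : ℕ, ¬ rootMultiplicity (a ^ b) (red (ResidueField A) h) <
      rootMultiplicity (a ^ b) (red (ResidueField A) g) → ty g h a b = 0 := by
    intro b hb
    unfold ty
    exact if_neg hb
  by_cases h1 : rootMultiplicity (a ^ k) (red (ResidueField A) h) <
      rootMultiplicity (a ^ k) (red (ResidueField A) g) <;>
    by_cases h2 : rootMultiplicity (a ^ ((m - 1) * k)) (red (ResidueField A) h) <
      rootMultiplicity (a ^ ((m - 1) * k)) (red (ResidueField A) g)
  · -- both big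
    rw [t1 k h1, t1 _ h2]
    have hN : Ngr - Ng + C ((1 : ℕ) : ResidueField A) * (Δ + Nc1 - Nc) +
        C ((1 : ℕ) : ResidueField A) * (Nc - Nc2) = (Nh + Δ) - Nhr := by
      rw [hNh, hNhr, Nat.cast_one, C_1]
      ring
    rw [hN]
    have hneg : red (ResidueField A) (-(X * h)) = (-X) * red (ResidueField A) h := by
      unfold red
      rw [Polynomial.map_neg, Polynomial.map_mul, Polynomial.map_X, neg_mul]
    have hnegne : red (ResidueField A) (-(X * h)) ≠ 0 := by
      rw [hneg]
      exact mul_ne_zero (neg_ne_zero.2 hX) hhne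
    refine mk_rep 0 (expand ℤ k (-(X * h))) (expand ℤ k h.reverse)
      (S (a ^ k) D (red _ (-(X * h)))) (S (a ^ k) D (red _ h.reverse)) ?_ (hR _).1 (hR _).1
      ((hR _).2.2 hnegne) ((hR _).2.2 hhrne) ?_ (S_ld e11) (S_ld ehr) ?_
    · rw [hev, hev, zpow_zero, mul_one, uu, map_neg, map_mul, aeval_X, div_mul_eq_mul_div, i3]
      field_simp
    · rw [hmS, hmS, hrm, hneg, rootMultiplicity_mul (by rw [← hneg]; exact hnegne),
        rootMultiplicity_eq_zero (p := -X) (by
          rw [IsRoot, eval_neg, eval_X, neg_eq_zero]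
          exact pow_ne_zero _ ha0)]
      rw [min_eq_right h1.le] at hcu
      rw [min_eq_right h2.le] at hcv
      omega
    · rw [S_sub, mul_sub]
  · -- big at b only
    rw [t1 k h1, t0 _ h2]
    have hN : Ngr - Ng + C ((1 : ℕ) : ResidueField A) * (Δ + Nc1 - Nc) +
        C ((0 : ℕ) : ResidueField A) * (Nc - Nc2) = (Ngr + (Nh + Nc)) - (-Δ) := by
      rw [hNh, Nat.cast_one, C_1, Nat.cast_zero, C_0]
      ring
    rw [hN]
    have hprod : red (ResidueField A) (g.reverse * (h * cyclotomic m ℤ)) ≠ 0 := by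
      rw [hredm, hredm, hredc]
      exact mul_ne_zero hgrne (mul_ne_zero hhne hc0ne)
    have hκ' : a ^ ((p - 1) * k) *
        (red (ResidueField A) (derivative (cyclotomic m ℤ))).eval (a ^ (p * k)) ≠ 0 :=
      mul_ne_zero (pow_ne_zero _ ha0) hκ
    refine mk_rep 1 (expand ℤ k (g.reverse * (h * cyclotomic m ℤ)))
      (X ^ ((p - 1) * k) * expand ℤ (p * k) (derivative (cyclotomic m ℤ)))
      (S (a ^ k) D (red _ (g.reverse * (h * cyclotomic m ℤ))))
      (C (a ^ ((p - 1) * k) *
        (red (ResidueField A) (derivative (cyclotomic m ℤ))).eval (a ^ (p * k))) *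
          X ^ ((p - 1) * k)) ?_ (hR _).1 (special a _ _ _) ((hR _).2.2 hprod)
      (mul_ne_zero (C_ne_zero.2 hκ') (pow_ne_zero _ hX)) ?_ (S_ld e10)
      (M2 := C (D : ResidueField A) * S (a ^ k) D (-Δ)) ?_ ?_
    · rw [hev, map_mul, map_pow, aeval_X, hev, zpow_one, uu, map_mul, map_mul]
      have h3 : ((z : K) ^ k) ^ (p - 1) = (z : K) ^ ((p - 1) * k) := by
        rw [← pow_mul, mul_comm]
      have h4 : ((z : K) ^ k) ^ p = (z : K) ^ (p * k) := by
        rw [← pow_mul, mul_comm]
      rw [h3, h4] at i1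
      rw [mul_assoc, ← i1]
      field_simp
    · rw [hmS, mult_const hκ', hredm, hredm, hredc,
        rootMultiplicity_mul (by rw [← hredc, ← hredm, ← hredm]; exact hprod),
        rootMultiplicity_mul (mul_ne_zero hhne hc0ne), hrm]
      rw [min_eq_right h1.le] at hcu
      rw [min_eq_left (not_lt.1 h2)] at hcv
      omega
    · rw [ld_const, S_neg]
      have h3 : (((p - 1) * k : ℕ) : ResidueField A) = -(D : ResidueField A) := by
        rw [Nat.cast_mul, Nat.cast_sub hp.one_le, hpL, Nat.cast_one,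
          (CharP.natCast_eq_natCast (ResidueField A) p).2 hkD]
        ring
      rw [h3, C_neg]
      ring
    · rw [S_sub, mul_sub]
  · -- big at -b only
    rw [t0 k h1, t1 _ h2]
    have hN : Ngr - Ng + C ((0 : ℕ) : ResidueField A) * (Δ + Nc1 - Nc) +
        C ((1 : ℕ) : ResidueField A) * (Nc - Nc2) = 0 - (Nhr + (Ng + Nc)) := by
      rw [hNhr, Nat.cast_one, C_1, Nat.cast_zero, C_0]
      ring
    rw [hN]
    have hprod : red (ResidueField A) (h.reverse * (g * cyclotomic m ℤ)) ≠ 0 := by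
      rw [hredm, hredm, hredc]
      exact mul_ne_zero hhrne (mul_ne_zero hgne hc0ne)
    have hκ' : -(a ^ (p * k) *
        (red (ResidueField A) (derivative (cyclotomic m ℤ))).eval (a ^ (p * k))) ≠ 0 :=
      neg_ne_zero.2 (mul_ne_zero (pow_ne_zero _ ha0) hκ)
    refine mk_rep (-1) (-(X ^ (p * k) * expand ℤ (p * k) (derivative (cyclotomic m ℤ))))
      (expand ℤ k (h.reverse * (g * cyclotomic m ℤ)))
      (C (-(a ^ (p * k) *
        (red (ResidueField A) (derivative (cyclotomic m ℤ))).eval (a ^ (p * k)))) *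
          X ^ (p * k))
      (S (a ^ k) D (red _ (h.reverse * (g * cyclotomic m ℤ)))) ?_ ?_ (hR _).1
      (mul_ne_zero (C_ne_zero.2 hκ') (pow_ne_zero _ hX)) ((hR _).2.2 hprod) ?_
      (M1 := 0) ?_ (S_ld e01) ?_
    · have h6 : aeval (z : K) (-(X ^ (p * k) * expand ℤ (p * k) (derivative (cyclotomic m ℤ)))) =
          -((z : K) ^ (p * k) * aeval ((z : K) ^ (p * k)) (derivative (cyclotomic m ℤ))) := by
        rw [map_neg, map_mul, map_pow, aeval_X, hev]
      rw [h6, hev, uu, map_mul, map_mul]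
      have h4 : ((z : K) ^ k) ^ p = (z : K) ^ (p * k) := by
        rw [← pow_mul, mul_comm]
      rw [h4] at i2
      have hp0 : (p : K) ≠ 0 := Nat.cast_ne_zero.2 hp.ne_zero
      rw [zpow_neg_one]
      have h5 : aeval ((z : K) ^ k) g.reverse / aeval ((z : K) ^ k) g * (p : K)⁻¹ *
          (aeval ((z : K) ^ k) h.reverse * (aeval ((z : K) ^ k) g *
            aeval ((z : K) ^ k) (cyclotomic m ℤ))) =
          (p : K)⁻¹ * (aeval ((z : K) ^ k) g.reverse * (aeval ((z : K) ^ k) h.reverse *
            aeval ((z : K) ^ k) (cyclotomic m ℤ))) := by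
        field_simp
      rw [h5, i2]
      field_simp
    · have h3 : (red (ResidueField A)
          (-(X ^ (p * k) * expand ℤ (p * k) (derivative (cyclotomic m ℤ))))).comp
            (C a * X) - C (-(a ^ (p * k) *
        (red (ResidueField A) (derivative (cyclotomic m ℤ))).eval (a ^ (p * k)))) *
          X ^ (p * k) = -((red (ResidueField A)
          (X ^ (p * k) * expand ℤ (p * k) (derivative (cyclotomic m ℤ)))).comp
            (C a * X) - C (a ^ (p * k) *
        (red (ResidueField A) (derivative (cyclotomic m ℤ))).eval (a ^ (p * k))) *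
          X ^ (p * k)) := by
        have h4 : red (ResidueField A)
          (-(X ^ (p * k) * expand ℤ (p * k) (derivative (cyclotomic m ℤ)))) =
          -(red (ResidueField A)
          (X ^ (p * k) * expand ℤ (p * k) (derivative (cyclotomic m ℤ)))) :=
          Polynomial.map_neg _
        rw [h4, neg_comp, C_neg]
        ring
      rw [h3]
      exact dvd_neg.2 (special a _ _ _)
    · rw [hmS, mult_const hκ', hredm, hredm, hredc,
        rootMultiplicity_mul (by rw [← hredc, ← hredm, ← hredm]; exact hprod),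
        rootMultiplicity_mul (mul_ne_zero hgne hc0ne), hrm]
      rw [min_eq_left (not_lt.1 h1)] at hcu
      rw [min_eq_right h2.le] at hcv
      omega
    · rw [ld_const]
      have h3 : ((p * k : ℕ) : ResidueField A) = 0 := by
        rw [Nat.cast_mul, hpL, zero_mul]
      rw [h3]
      simp
    · rw [S_sub]
      unfold S
      rw [zero_comp]
      ring
  · -- not big
    rw [t0 k h1, t0 _ h2]
    have hN : Ngr - Ng + C ((0 : ℕ) : ResidueField A) * (Δ + Nc1 - Nc) +
        C ((0 : ℕ) : ResidueField A) * (Nc - Nc2) = Ngr - Ng := by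
      rw [Nat.cast_zero, C_0]
      ring
    rw [hN]
    refine mk_rep 0 (expand ℤ k g.reverse) (expand ℤ k g)
      (S (a ^ k) D (red _ g.reverse)) (S (a ^ k) D (red _ g)) ?_ (hR _).1 (hR _).1
      ((hR _).2.2 hgrne) ((hR _).2.2 hgne) ?_ (S_ld egr) (S_ld eg) ?_
    · rw [hev, hev, zpow_zero, mul_one, uu, div_mul_cancel₀ _ hg0]
    · rw [hmS, hmS, hrm]
      rw [min_eq_left (not_lt.1 h1)] at hcu
      rw [min_eq_left (not_lt.1 h2)] at hcv
      omega
    · rw [S_sub, mul_sub]

end Pool.Agent.CYE.H51
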